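import Mathlib
import Pool.Agent.TH876.KR.Fin
import Pool.Agent.TH876.MN.Def

set_option autoImplicit false

/-!
# Points of the product of two projective lines: definitions
-/

namespace Pool.Agent.TH876.PR

open NumberField IsDedekindDomain Finset Pool.Agent.H691R3 Pool.Agent.TH876.Loc
open Pool.Agent.TH876.KR (form localHeight GoodPr)

variable {K : Type} [Field K] [NumberField K]

/-- the primes outside `T` at which the point `x` meets one of the points `a i` -/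
def badSet {q : ℕ} (T : Finset (Pr K)) (a : Fin q → Fin 2 → K) (x : Fin 2 → K) : Set (Pr K) :=
  {v | v ∉ T ∧ 0 < ∑ i, localHeight v (a i) x}

open Classical in
/-- the same as a finite set -/
noncomputable def bs {q : ℕ} (T : Finset (Pr K)) (a : Fin q → Fin 2 → K) (x : Fin 2 → K) :
    Finset (Pr K) :=
  if h : (badSet T a x).Finite then h.toFinset else ∅

/-- the projective line over `K` -/
abbrev PL (K : Type) [Field K] : Type := Projectivization K (Fin 2 → K)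

/-- `P` is off the points `a i` -/
def Off {q : ℕ} (a : Fin q → Fin 2 → K) (P : PL K) : Prop := ∀ i, form (a i) P.rep ≠ 0

section

variable (K)

/-- the count of the points of the line -/
def BaseBound {q : ℕ} (T : Finset (Pr K)) (a : Fin q → Fin 2 → K) : Prop :=
  ∀ ε : ℝ, 0 < ε → ∃ C : ℝ, 0 < C ∧ ∀ X H : ℝ, 1 ≤ X → 1 ≤ H → ∀ F : Finset (PL K),
    (∀ P ∈ F, Off a P ∧ nn (bs T a P.rep) ≤ X ∧ Height.logHeight P.rep ≤ H) →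
    (F.card : ℝ) ≤ C * H * X ^ (2 / (q : ℝ) + ε)

/-- the count of the points with few primes outside a given set -/
def FreeBound {r : ℕ} (T : Finset (Pr K)) (b : Fin r → Fin 2 → K) : Prop :=
  ∀ ε : ℝ, 0 < ε → ∃ D : ℝ, 0 < D ∧ ∀ X : ℝ, 1 ≤ X → ∀ c : Finset (Pr K), nn c ≤ X →
    ∀ M : ℝ, 1 ≤ M → M ≤ X → ∀ F : Finset (PL K),
    (∀ Q ∈ F, Off b Q ∧ ∀ t : Finset (Pr K), (∀ v ∈ t, v ∈ bs T b Q.rep ∧ v ∉ c) → nn t ≤ M) →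
    (F.card : ℝ) ≤ D * X ^ ε * M ^ (3 / (r : ℝ))

end

/-- an abstract count of pairs, through the two projections -/
def PairBound : Prop := ∀ (q r : ℕ), 1 ≤ q → 1 ≤ r → ∀ ε : ℝ, 0 < ε → ∃ E : ℝ, 0 < E ∧
  ∀ (A B : Type) (R1 : A → ℝ) (R2 : B → ℝ) (U : A → B → ℝ),
  (∀ a, 1 ≤ R1 a) → (∀ b, 1 ≤ R2 b) → (∀ a b, R1 a ≤ U a b) → (∀ a b, R2 b ≤ U a b) →
  (∀ a b, U a b ≤ R1 a * R2 b) → ∀ (M D X : ℝ), 0 < M → 0 < D → 1 ≤ X →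
  ∀ (GA : Set A) (GB : Set B),
  (∀ R : ℝ, 1 ≤ R → ∀ F : Finset A, (∀ a ∈ F, a ∈ GA ∧ R1 a ≤ R) →
    (F.card : ℝ) ≤ M * R ^ (2 / (q : ℝ) + ε)) →
  (∀ R : ℝ, 1 ≤ R → ∀ F : Finset B, (∀ b ∈ F, b ∈ GB ∧ R2 b ≤ R) →
    (F.card : ℝ) ≤ M * R ^ (2 / (r : ℝ) + ε)) →
  (∀ a ∈ GA, ∀ Y : ℝ, R1 a ≤ Y → Y ≤ X → ∀ F : Finset B, (∀ b ∈ F, b ∈ GB ∧ U a b ≤ Y) →
    (F.card : ℝ) ≤ D * X ^ ε * (Y / R1 a) ^ (3 / (r : ℝ))) →
  (∀ b ∈ GB, ∀ Y : ℝ, R2 b ≤ Y → Y ≤ X → ∀ F : Finset A, (∀ a ∈ F, a ∈ GA ∧ U a b ≤ Y) →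
    (F.card : ℝ) ≤ D * X ^ ε * (Y / R2 b) ^ (3 / (q : ℝ))) →
  ∀ F : Finset (A × B), (∀ p ∈ F, p.1 ∈ GA ∧ p.2 ∈ GB ∧ U p.1 p.2 ≤ X) →
    (F.card : ℝ) ≤ D * M * E * X ^
      (max (max (2 / (q : ℝ)) (2 / (r : ℝ))) (5 / ((q : ℝ) + r)) + 3 * ε)

end Pool.Agent.TH876.PR
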