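import Mathlib
import Pool.Agent.TH876.PR.Def
import Pool.Agent.TH876.KR.Main

set_option autoImplicit false

/-!
# The count of the points of the projective line
-/

namespace Pool.Agent.TH876.PR

open NumberField IsDedekindDomain Finset Pool.Agent.H691R3 Pool.Agent.TH876.Loc
open Pool.Agent.TH876.KR (form localHeight GoodPr)

variable {K : Type} [Field K] [NumberField K]

/-- the set of the bad primes is finite -/
theorem Base_badSet_finite {q : ℕ} (hq : 3 ≤ q) {a : Fin q → Fin 2 → K}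
    (ha : ∀ i j, i ≠ j → form (a i) (a j) ≠ 0) (T : Finset (Pr K)) {x : Fin 2 → K} (hx0 : x ≠ 0)
    (hx : ∀ i, form (a i) x ≠ 0) : (badSet T a x).Finite := by
  classical
  obtain ⟨T', hT'⟩ := KR.bad_finite hq (∅ : Set (Pr K)) Set.finite_empty ha
  have h1 : (⋃ i, {v : Pr K | fv v (form (a i) x) ≠ 1}).Finite :=
    Set.finite_iUnion fun i => fv_support_finite (hx i)
  refine (T'.finite_toSet.union ((KR.good_finite x).union h1)).subset ?_
  intro v hv
  by_contra hcon
  rw [Set.mem_union, Set.mem_union, not_or, not_or] at hcon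
  obtain ⟨k1, k2, k3⟩ := hcon
  have hg := (hT' v k1).2
  have hgx : KR.Good v x := by
    by_contra h'
    exact k2 h'
  have h2 : ∀ i, fv v (form (a i) x) = 1 := by
    intro i
    by_contra h'
    exact k3 (Set.mem_iUnion.2 ⟨i, h'⟩)
  have h3 : ∑ i, localHeight v (a i) x = 0 := by
    refine Finset.sum_eq_zero fun i _ => ?_
    rw [KR.localHeight_eq, h2 i, hg.1 i, KR.m2_of_good hx0 hgx]
    simp
  have h4 := hv.2
  rw [h3] at h4
  exact lt_irrefl _ h4

theorem Base_counting {q : ℕ} (hq : 3 ≤ q) {a : Fin q → Fin 2 → K}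
    (ha : ∀ i j, i ≠ j → form (a i) (a j) ≠ 0) (T : Finset (Pr K)) {x : Fin 2 → K} (hx0 : x ≠ 0)
    (hx : ∀ i, form (a i) x ≠ 0) : KR.counting (↑T : Set (Pr K)) a x = Real.log (nn (bs T a x)) := by
  classical
  have hI := Base_badSet_finite hq ha T hx0 hx
  unfold KR.counting bs
  rw [dif_pos hI, KR.log_nn, ← finsum_mem_coe_finset, Set.Finite.coe_toFinset]
  rfl

variable (K) in
theorem baseBound {q : ℕ} (hq : 3 ≤ q) (a : Fin q → Fin 2 → K)
    (ha : ∀ i j, i ≠ j → form (a i) (a j) ≠ 0) (T : Finset (Pr K)) : BaseBound K T a := by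
  classical
  intro ε hε
  obtain ⟨C, hC⟩ := KR.final K (KR.main_count K) (↑T : Set (Pr K)) T.finite_toSet q hq a ha ε hε
  refine ⟨max C 1, lt_of_lt_of_le one_pos (le_max_right _ _), ?_⟩
  intro X H hX hH F hF
  have hX0 : 0 < X := by linarith
  obtain ⟨hfin, hcard⟩ := hC X H hX hH
  have hsub : (↑F : Set (PL K)) ⊆ KR.Points (↑T : Set (Pr K)) a X H := by
    intro P hP
    obtain ⟨h1, h2, h3⟩ := hF P hP
    refine ⟨P.rep, P.rep_nonzero, P.mk_rep.symm, h1, ?_, h3⟩
    rw [Base_counting hq ha T P.rep_nonzero h1, Real.exp_log (nn_pos _)]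
    exact h2
  have h1 : (F.card : ℝ) ≤ ((KR.Points (↑T : Set (Pr K)) a X H).ncard : ℝ) := by
    have := Set.ncard_le_ncard hsub hfin
    rw [Set.ncard_coe_finset] at this
    exact_mod_cast this
  refine (h1.trans hcard).trans ?_
  have h2 : 0 ≤ X ^ (2 / (q : ℝ) + ε) := Real.rpow_nonneg hX0.le _
  refine mul_le_mul_of_nonneg_right ?_ h2
  exact mul_le_mul_of_nonneg_right (le_max_left _ _) (by linarith)

end Pool.Agent.TH876.PR
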