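import Mathlib
import Pool.Agent.TH876.PR.Def

set_option autoImplicit false

/-!
# Bad primes of a point of the projective line
-/

namespace Pool.Agent.TH876.PR

open NumberField IsDedekindDomain Finset Pool.Agent.H691R3 Pool.Agent.TH876.Loc
open Pool.Agent.TH876.KR (form localHeight GoodPr)

variable {K : Type} [Field K] [NumberField K]

private theorem basic_m2_smul (v : Pr K) (x : Fin 2 → K) (c : K) :
    KR.m2 v (c • x) = fv v c * KR.m2 v x := by
  unfold KR.m2
  rw [Pi.smul_apply, Pi.smul_apply, smul_eq_mul, smul_eq_mul, map_mul, map_mul,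
    mul_max_of_nonneg _ _ ((fv v).nonneg c)]

omit [NumberField K] in
private theorem basic_form_smul (a x : Fin 2 → K) (c : K) : form a (c • x) = c * form a x := by
  unfold KR.form
  rw [Pi.smul_apply, Pi.smul_apply, smul_eq_mul, smul_eq_mul]
  ring

/-- local heights do not depend on the representative -/
theorem localHeight_smul (v : Pr K) (a x : Fin 2 → K) {c : K} (hc : c ≠ 0) :
    localHeight v a (c • x) = localHeight v a x := by
  have hv : fv v c ≠ 0 := ((fv v).pos hc).ne'
  rw [KR.localHeight_eq, KR.localHeight_eq, basic_m2_smul, basic_form_smul, map_mul]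
  congr 1
  rw [mul_left_comm, mul_div_mul_left _ _ hv]

theorem badSet_finite {q : ℕ} (T : Finset (Pr K)) (a : Fin q → Fin 2 → K)
    (ha : ∀ i, a i ≠ 0) {x : Fin 2 → K} (hx0 : x ≠ 0) (hx : ∀ i, form (a i) x ≠ 0) :
    (badSet T a x).Finite := by
  have h1 : (⋃ i, {v : Pr K | ¬ KR.Good v (a i)}).Finite :=
    Set.finite_iUnion fun i => KR.good_finite (a i)
  have h2 : (⋃ i, {v : Pr K | fv v (form (a i) x) ≠ 1}).Finite :=
    Set.finite_iUnion fun i => fv_support_finite (hx i)
  refine ((h1.union h2).union (KR.good_finite x)).subset ?_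
  intro v hv
  by_contra hcon
  rw [Set.mem_union, Set.mem_union, Set.mem_iUnion, Set.mem_iUnion] at hcon
  push Not at hcon
  obtain ⟨⟨g1, g2⟩, g3⟩ := hcon
  have g3' : KR.Good v x := by
    by_contra h
    exact g3 h
  have h0 : ∑ i, localHeight v (a i) x = 0 := by
    refine Finset.sum_eq_zero fun i _ => ?_
    have g1' : KR.Good v (a i) := by
      by_contra h
      exact g1 i h
    have g2' : fv v (form (a i) x) = 1 := by
      by_contra h
      exact g2 i h
    rw [KR.localHeight_eq, KR.m2_of_good (ha i) g1', KR.m2_of_good hx0 g3', g2', one_mul,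
      div_one, Real.log_one]
  exact absurd hv.2 (by rw [h0]; exact lt_irrefl _)

theorem mem_bs {q : ℕ} {T : Finset (Pr K)} {a : Fin q → Fin 2 → K}
    (ha : ∀ i, a i ≠ 0) {x : Fin 2 → K} (hx0 : x ≠ 0) (hx : ∀ i, form (a i) x ≠ 0) (v : Pr K) :
    v ∈ bs T a x ↔ v ∉ T ∧ 0 < ∑ i, localHeight v (a i) x := by
  unfold bs
  rw [dif_pos (badSet_finite T a ha hx0 hx), Set.Finite.mem_toFinset]
  exact Iff.rfl

theorem bs_smul {q : ℕ} (T : Finset (Pr K)) (a : Fin q → Fin 2 → K) (x : Fin 2 → K) {c : K}
    (hc : c ≠ 0) : bs T a (c • x) = bs T a x := by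
  have h : badSet T a (c • x) = badSet T a x := by
    ext v
    unfold badSet
    rw [Set.mem_ofPred_eq, Set.mem_ofPred_eq]
    rw [Finset.sum_congr rfl fun i _ => localHeight_smul v (a i) x hc]
  unfold bs
  rw [h]

end Pool.Agent.TH876.PR
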