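import Mathlib
import Pool.Agent.TH876.PR.Basic
import Pool.Agent.TH876.PR.Def

set_option autoImplicit false

/-!
# The final statement on the product of two projective lines (helper126 for helper876)
-/

namespace Pool.Agent.TH876.PR

open NumberField IsDedekindDomain Finset Pool.Agent.H691R3 Pool.Agent.TH876.Loc
open Pool.Agent.TH876.KR (form localHeight GoodPr)

variable {K : Type} [Field K] [NumberField K]

/-- the truncated counting function of `(x, y)` relative to the divisor with the components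
`{a i} × P^1` and `P^1 × {b j}` -/
noncomputable def counting2 (S : Set (HeightOneSpectrum (𝓞 K))) {q r : ℕ}
    (a : Fin q → Fin 2 → K) (b : Fin r → Fin 2 → K) (x y : Fin 2 → K) : ℝ :=
  ∑ᶠ v ∈ {v : HeightOneSpectrum (𝓞 K) | v ∉ S ∧
    0 < ∑ i, localHeight v (a i) x + ∑ j, localHeight v (b j) y},
    Real.log (Ideal.absNorm v.asIdeal : ℝ)

/-- the points of `P^1 × P^1` over `K` off the divisor, of height at most `H`, with
`exp N^(1) ≤ X` -/
def Points2 (S : Set (HeightOneSpectrum (𝓞 K))) {q r : ℕ}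
    (a : Fin q → Fin 2 → K) (b : Fin r → Fin 2 → K) (X H : ℝ) :
    Set (Projectivization K (Fin 2 → K) × Projectivization K (Fin 2 → K)) :=
  {P | ∃ (x : Fin 2 → K) (hx : x ≠ 0) (y : Fin 2 → K) (hy : y ≠ 0),
    P = (Projectivization.mk K x hx, Projectivization.mk K y hy) ∧
    (∀ i, form (a i) x ≠ 0) ∧ (∀ j, form (b j) y ≠ 0) ∧
    Real.exp (counting2 S a b x y) ≤ X ∧ Height.logHeight x ≤ H ∧ Height.logHeight y ≤ H}

private theorem fin2_form_smul (a x : Fin 2 → K) (c : K) : form a (c • x) = c * form a x := by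
  simp only [form, Pi.smul_apply, smul_eq_mul]
  ring

private theorem fin2_ne {q : ℕ} (hq : 3 ≤ q) {a : Fin q → Fin 2 → K}
    (ha : ∀ i j, i ≠ j → form (a i) (a j) ≠ 0) (i : Fin q) : a i ≠ 0 := by
  have : ∃ j : Fin q, i ≠ j := by
    by_cases h : i = ⟨0, by omega⟩
    · refine ⟨⟨1, by omega⟩, ?_⟩
      rw [h]
      intro h'
      have := congrArg Fin.val h'
      simp at this
    · exact ⟨_, h⟩
  obtain ⟨j, hj⟩ := this
  intro h0
  apply ha i j hj
  rw [h0]
  simp [form]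

private theorem fin2_card {α : Type} {S : Set α} {B : ℝ} (h : ∀ F : Finset α, (F : Set α) ⊆ S →
    (F.card : ℝ) ≤ B) : S.Finite ∧ (S.ncard : ℝ) ≤ B := by
  have hfin : S.Finite := by
    by_contra hinf
    obtain ⟨G, hGV, hGc⟩ := Set.Infinite.exists_subset_card_eq hinf (⌊B⌋₊ + 1)
    have h1 := h G hGV
    have h2 := Nat.lt_floor_add_one B
    rw [hGc] at h1
    push_cast at h1
    linarith
  refine ⟨hfin, ?_⟩
  rw [Set.ncard_eq_toFinset_card _ hfin]
  exact h hfin.toFinset (by rw [Set.Finite.coe_toFinset])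

/-- the fibre condition from `FreeBound` -/
private theorem fin2_fibre {r : ℕ} {T : Finset (Pr K)} {b : Fin r → Fin 2 → K} {ε D : ℝ}
    (hD : ∀ X : ℝ, 1 ≤ X → ∀ c : Finset (Pr K), nn c ≤ X →
      ∀ M : ℝ, 1 ≤ M → M ≤ X → ∀ F : Finset (PL K),
      (∀ Q ∈ F, Off b Q ∧ ∀ t : Finset (Pr K), (∀ v ∈ t, v ∈ bs T b Q.rep ∧ v ∉ c) → nn t ≤ M) →
      (F.card : ℝ) ≤ D * X ^ ε * M ^ (3 / (r : ℝ)))
    {X : ℝ} (hX : 1 ≤ X) (c : Finset (Pr K)) (u : PL K → Finset (Pr K)) (Y : ℝ)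
    (hcY : nn c ≤ Y) (hYX : Y ≤ X) (F : Finset (PL K))
    (hF : ∀ Q ∈ F, Off b Q ∧ c ⊆ u Q ∧ bs T b Q.rep ⊆ u Q ∧ nn (u Q) ≤ Y) :
    (F.card : ℝ) ≤ D * X ^ ε * (Y / nn c) ^ (3 / (r : ℝ)) := by
  classical
  have hc0 := nn_pos c
  refine hD X hX c (hcY.trans hYX) (Y / nn c) ?_ ?_ F ?_
  · rw [le_div_iff₀ hc0, one_mul]
    exact hcY
  · rw [div_le_iff₀ hc0]
    have h1 := one_le_nn c
    nlinarith
  · intro Q hQ
    obtain ⟨h1, h2, h3, h4⟩ := hF Q hQ
    refine ⟨h1, fun t ht => ?_⟩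
    have hdisj : Disjoint t c := by
      rw [Finset.disjoint_left]
      exact fun v hv => (ht v hv).2
    have h5 : nn (t ∪ c) ≤ nn (u Q) := by
      apply nn_mono
      intro v hv
      rcases Finset.mem_union.1 hv with h | h
      · exact h3 (ht v h).1
      · exact h2 h
    rw [nn_union hdisj] at h5
    rw [le_div_iff₀ hc0]
    exact h5.trans h4

private theorem fin2_union_le (s t : Finset (Pr K)) [DecidableEq (Pr K)] :
    nn (s ∪ t) ≤ nn s * nn t := by
  have h1 : nn (s ∪ t) = nn s * nn (t \ s) := by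
    rw [← nn_union Finset.disjoint_sdiff, Finset.union_sdiff_self_eq_union]
  rw [h1]
  exact mul_le_mul_of_nonneg_left (nn_mono Finset.sdiff_subset) (nn_pos s).le

/-- the truncated counting function bounds the product over the bad primes -/
private theorem fin2_count {q r : ℕ} {S : Set (HeightOneSpectrum (𝓞 K))} {T : Finset (Pr K)}
    [DecidableEq (Pr K)]
    (hT : ∀ v, v ∉ T → v ∉ S) {a : Fin q → Fin 2 → K} {b : Fin r → Fin 2 → K}
    (ha : ∀ i, a i ≠ 0) (hb : ∀ j, b j ≠ 0) {x y : Fin 2 → K} (hx0 : x ≠ 0) (hy0 : y ≠ 0)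
    (hx : ∀ i, form (a i) x ≠ 0) (hy : ∀ j, form (b j) y ≠ 0) {X : ℝ} (hX : 1 ≤ X)
    (h : Real.exp (counting2 S a b x y) ≤ X) :
    nn (bs T a x ∪ bs T b y) ≤ X := by
  have n1 : ∀ v : Pr K, 0 ≤ ∑ i, localHeight v (a i) x := fun v =>
    Finset.sum_nonneg fun i _ => KR.localHeight_nonneg v (hx i)
  have n2 : ∀ v : Pr K, 0 ≤ ∑ j, localHeight v (b j) y := fun v =>
    Finset.sum_nonneg fun i _ => KR.localHeight_nonneg v (hy i)
  obtain ⟨I, hIdef⟩ : ∃ I : Set (Pr K), I = {v | v ∉ S ∧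
      0 < ∑ i, localHeight v (a i) x + ∑ j, localHeight v (b j) y} := ⟨_, rfl⟩
  have hI : I.Finite := by
    refine (T.finite_toSet.union ((badSet_finite T a ha hx0 hx).union
      (badSet_finite T b hb hy0 hy))).subset ?_
    intro v hv
    rw [hIdef] at hv
    obtain ⟨_, hv2⟩ := hv
    by_contra hcon
    rw [Set.mem_union, Set.mem_union, not_or, not_or] at hcon
    obtain ⟨k1, k2, k3⟩ := hcon
    have k1' : v ∉ T := fun h' => k1 (Finset.mem_coe.2 h')
    have e1 : ¬ 0 < ∑ i, localHeight v (a i) x := fun h' => k2 ⟨k1', h'⟩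
    have e2 : ¬ 0 < ∑ j, localHeight v (b j) y := fun h' => k3 ⟨k1', h'⟩
    linarith
  have hcount : counting2 S a b x y = Real.log (nn hI.toFinset) := by
    unfold counting2
    rw [KR.log_nn, ← finsum_mem_coe_finset, Set.Finite.coe_toFinset, hIdef]
    rfl
  have hlog : Real.log (nn hI.toFinset) ≤ Real.log X := by
    rw [hcount] at h
    exact (Real.le_log_iff_exp_le (by linarith)).2 h
  have h1 : nn hI.toFinset ≤ X :=
    (Real.log_le_log_iff (nn_pos _) (by linarith)).1 hlog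
  refine le_trans (nn_mono ?_) h1
  intro v hv
  rw [Set.Finite.mem_toFinset, hIdef]
  rcases Finset.mem_union.1 hv with hv | hv
  · obtain ⟨k1, k2⟩ := (mem_bs ha hx0 hx v).1 hv
    exact ⟨hT v k1, add_pos_of_pos_of_nonneg k2 (n2 v)⟩
  · obtain ⟨k1, k2⟩ := (mem_bs hb hy0 hy v).1 hv
    exact ⟨hT v k1, add_pos_of_nonneg_of_pos (n1 v) k2⟩

variable (K) in
/-- the final statement -/
theorem final2 (hp : PairBound)
    (hb : ∀ (q : ℕ), 3 ≤ q → ∀ (a : Fin q → Fin 2 → K), (∀ i j, i ≠ j → form (a i) (a j) ≠ 0) →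
      ∀ T : Finset (Pr K), BaseBound K T a)
    (hf : ∀ (r : ℕ), 3 ≤ r → ∀ (b : Fin r → Fin 2 → K), (∀ i j, i ≠ j → form (b i) (b j) ≠ 0) →
      ∀ T : Finset (Pr K), (∀ v, v ∉ T → GoodPr b v) → FreeBound K T b)
    (S : Set (HeightOneSpectrum (𝓞 K))) (hS : S.Finite) (q r : ℕ) (hq : 3 ≤ q) (hr : 3 ≤ r)
    (a : Fin q → Fin 2 → K) (ha : ∀ i j, i ≠ j → form (a i) (a j) ≠ 0)
    (b : Fin r → Fin 2 → K) (hbb : ∀ i j, i ≠ j → form (b i) (b j) ≠ 0) (ε : ℝ) (hε : 0 < ε) :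
    ∃ C : ℝ, ∀ X H : ℝ, 1 ≤ X → 1 ≤ H → (Points2 S a b X H).Finite ∧
      ((Points2 S a b X H).ncard : ℝ) ≤ C * H * X ^
        (max (max (2 / (q : ℝ)) (2 / (r : ℝ))) (5 / ((q : ℝ) + r)) + ε) := by
  classical
  obtain ⟨T1, hT1⟩ := KR.bad_finite hq S hS ha
  obtain ⟨T2, hT2⟩ := KR.bad_finite hr S hS hbb
  obtain ⟨T, hTdef⟩ : ∃ T : Finset (Pr K), T = T1 ∪ T2 := ⟨_, rfl⟩
  have hTS : ∀ v, v ∉ T → v ∉ S := fun v hv =>
    (hT1 v fun h => hv (hTdef ▸ Finset.mem_union_left _ h)).1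
  have hTa : ∀ v, v ∉ T → GoodPr a v := fun v hv =>
    (hT1 v fun h => hv (hTdef ▸ Finset.mem_union_left _ h)).2
  have hTb : ∀ v, v ∉ T → GoodPr b v := fun v hv =>
    (hT2 v fun h => hv (hTdef ▸ Finset.mem_union_right _ h)).2
  have ha0 := fin2_ne hq ha
  have hb0 := fin2_ne hr hbb
  obtain ⟨η, hη⟩ : ∃ η : ℝ, η = ε / 3 := ⟨_, rfl⟩
  have hη0 : 0 < η := by rw [hη]; positivity
  obtain ⟨Ca, hCa0, hCa⟩ := hb q hq a ha T η hη0
  obtain ⟨Cb, hCb0, hCb⟩ := hb r hr b hbb T η hη0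
  obtain ⟨Da, hDa0, hDa⟩ := hf q hq a ha T hTa η hη0
  obtain ⟨Db, hDb0, hDb⟩ := hf r hr b hbb T hTb η hη0
  obtain ⟨E, hE0, hE⟩ := hp q r (by omega) (by omega) η hη0
  refine ⟨(Da + Db) * (Ca + Cb) * E, ?_⟩
  intro X H hX hH
  have hX0 : 0 < X := by linarith
  have hH0 : 0 < H := by linarith
  have key := hE (PL K) (PL K) (fun P => nn (bs T a P.rep)) (fun Q => nn (bs T b Q.rep))
    (fun P Q => nn (bs T a P.rep ∪ bs T b Q.rep))
    (fun P => one_le_nn _) (fun Q => one_le_nn _)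
    (fun P Q => nn_mono Finset.subset_union_left) (fun P Q => nn_mono Finset.subset_union_right)
    (fun P Q => fin2_union_le _ _) ((Ca + Cb) * H) (Da + Db) X (by positivity) (by positivity) hX
    {P | Off a P ∧ Height.logHeight P.rep ≤ H} {Q | Off b Q ∧ Height.logHeight Q.rep ≤ H}
    (by
      intro R hR F hF
      refine (hCa R H hR hH F fun P hP => ⟨(hF P hP).1.1, (hF P hP).2, (hF P hP).1.2⟩).trans ?_
      have h1 : 0 ≤ Cb * H * R ^ (2 / (q : ℝ) + η) := by positivity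
      nlinarith)
    (by
      intro R hR F hF
      refine (hCb R H hR hH F fun P hP => ⟨(hF P hP).1.1, (hF P hP).2, (hF P hP).1.2⟩).trans ?_
      have h1 : 0 ≤ Ca * H * R ^ (2 / (r : ℝ) + η) := by positivity
      nlinarith)
    (by
      intro P hP Y hY hYX F hF
      refine (fin2_fibre hDb hX (bs T a P.rep) (fun Q => bs T a P.rep ∪ bs T b Q.rep) Y hY hYX F
        fun Q hQ => ⟨(hF Q hQ).1.1, Finset.subset_union_left, Finset.subset_union_right,
          (hF Q hQ).2⟩).trans ?_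
      have hY0 : 0 ≤ Y / nn (bs T a P.rep) := by
        have := nn_pos (bs T a P.rep)
        have h3 : 0 ≤ Y := by linarith
        positivity
      have h1 : 0 ≤ Da * X ^ η * (Y / nn (bs T a P.rep)) ^ (3 / (r : ℝ)) := by positivity
      nlinarith)
    (by
      intro Q hQ Y hY hYX F hF
      refine (fin2_fibre hDa hX (bs T b Q.rep) (fun P => bs T a P.rep ∪ bs T b Q.rep) Y hY hYX F
        fun P hP => ⟨(hF P hP).1.1, Finset.subset_union_right, Finset.subset_union_left,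
          (hF P hP).2⟩).trans ?_
      have hY0 : 0 ≤ Y / nn (bs T b Q.rep) := by
        have := nn_pos (bs T b Q.rep)
        have h3 : 0 ≤ Y := by linarith
        positivity
      have h1 : 0 ≤ Db * X ^ η * (Y / nn (bs T b Q.rep)) ^ (3 / (q : ℝ)) := by positivity
      nlinarith)
  apply fin2_card
  intro F hF
  refine (key F ?_).trans (le_of_eq ?_)
  · intro p hp
    obtain ⟨x, hx0, y, hy0, hP, hx, hy, hc, hhx, hhy⟩ := hF (Finset.mem_coe.2 hp)
    obtain ⟨c, hcx⟩ := Projectivization.exists_smul_eq_mk_rep K x hx0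
    obtain ⟨d, hdy⟩ := Projectivization.exists_smul_eq_mk_rep K y hy0
    have e1 : p.1.rep = (c : K) • x := by rw [hP]; exact hcx.symm
    have e2 : p.2.rep = (d : K) • y := by rw [hP]; exact hdy.symm
    refine ⟨⟨fun i => ?_, ?_⟩, ⟨fun j => ?_, ?_⟩, ?_⟩
    · rw [e1, fin2_form_smul]
      exact mul_ne_zero c.ne_zero (hx i)
    · rw [e1, Height.logHeight_smul_eq_logHeight _ c.ne_zero]
      exact hhx
    · rw [e2, fin2_form_smul]
      exact mul_ne_zero d.ne_zero (hy j)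
    · rw [e2, Height.logHeight_smul_eq_logHeight _ d.ne_zero]
      exact hhy
    · show nn (bs T a p.1.rep ∪ bs T b p.2.rep) ≤ X
      rw [e1, e2, bs_smul T a x c.ne_zero, bs_smul T b y d.ne_zero]
      exact fin2_count hTS ha0 hb0 hx0 hy0 hx hy hX hc
  · have h3 : 3 * η = ε := by rw [hη]; ring
    rw [h3]
    ring

end Pool.Agent.TH876.PR
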