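import Mathlib
import Pool.Agent.TH876.KR.Sets
import Pool.Agent.TH876.MN.LightS
import Pool.Agent.TH876.PR.Def

set_option autoImplicit false

/-!
# Points with few primes outside a given set (job 2386, helper81 for helper876)
-/

namespace Pool.Agent.TH876.PR

open NumberField IsDedekindDomain Finset Pool.Agent.H691R3 Pool.Agent.TH876.Loc
open Pool.Agent.TH876.KR (form localHeight GoodPr)

variable {K : Type} [Field K] [NumberField K]

/-- the bad set is finite -/
private theorem Free_finite {r : ℕ} {b : Fin r → Fin 2 → K} {T : Finset (Pr K)}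
    (hT : ∀ v, v ∉ T → GoodPr b v) {y : Fin 2 → K} (hy0 : y ≠ 0)
    (hy : ∀ i, form (b i) y ≠ 0) : (badSet T b y).Finite := by
  classical
  have h1 : (⋃ i, {v : Pr K | fv v (form (b i) y) ≠ 1}).Finite :=
    Set.finite_iUnion fun i => fv_support_finite (hy i)
  refine (T.finite_toSet.union ((KR.good_finite y).union h1)).subset ?_
  intro v hv
  by_contra hcon
  rw [Set.mem_union, Set.mem_union, not_or, not_or] at hcon
  obtain ⟨k1, k2, k3⟩ := hcon
  have hg := hT v k1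
  have hgx : KR.Good v y := by
    by_contra h'
    exact k2 h'
  have h2 : ∀ i, fv v (form (b i) y) = 1 := by
    intro i
    by_contra h'
    exact k3 (Set.mem_iUnion.2 ⟨i, h'⟩)
  have h3 : ∑ i, localHeight v (b i) y = 0 := by
    refine Finset.sum_eq_zero fun i _ => ?_
    rw [KR.localHeight_eq, h2 i, hg.1 i, KR.m2_of_good hy0 hgx]
    simp
  have h4 := hv.2
  rw [h3] at h4
  exact lt_irrefl _ h4

private theorem Free_mem {r : ℕ} {b : Fin r → Fin 2 → K} {T : Finset (Pr K)}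
    (hT : ∀ v, v ∉ T → GoodPr b v) {y : Fin 2 → K} (hy0 : y ≠ 0)
    (hy : ∀ i, form (b i) y ≠ 0) (v : Pr K) :
    v ∈ bs T b y ↔ v ∉ T ∧ 0 < ∑ i, localHeight v (b i) y := by
  unfold bs
  rw [dif_pos (Free_finite hT hy0 hy), Set.Finite.mem_toFinset]
  rfl

/-- three points with few new primes -/
private theorem Free_choose {r : ℕ} (hr : 3 ≤ r) {b : Fin r → Fin 2 → K}
    (hb : ∀ i j, i ≠ j → form (b i) (b j) ≠ 0) {T : Finset (Pr K)}
    (hT : ∀ v, v ∉ T → GoodPr b v) {y : Fin 2 → K} (hy0 : y ≠ 0)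
    (hy : ∀ i, form (b i) y ≠ 0) (c : Finset (Pr K)) {M : ℝ} (hM : 1 ≤ M)
    (h : ∀ t : Finset (Pr K), (∀ v ∈ t, v ∈ bs T b y ∧ v ∉ c) → nn t ≤ M) :
    ∃ (s : Fin r) (u : Finset (Pr K)),
      (∀ v ∈ sp (KR.tt (KR.tri b s) y), (v ∈ T ∨ v ∈ c) ∨ v ∈ u) ∧ nn u ≤ M ^ (3 / (r : ℝ)) := by
  classical
  have hM0 : 0 < M := by linarith
  have hlogpos : ∀ v : Pr K, 0 ≤ Real.log (Nv v) := fun v => (KR.log_Nv_pos' v).le
  have hmem := Free_mem hT hy0 hy
  set J : Finset (Pr K) := (bs T b y).filter (fun v => v ∉ c) with hJ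
  have hJM : nn J ≤ M := h J fun v hv => by
    rw [hJ, Finset.mem_filter] at hv
    exact hv
  set si : Fin r → Finset (Pr K) := fun i => J.filter fun v => 0 < localHeight v (b i) y with hsi
  have hJT : ∀ v ∈ J, v ∉ T := fun v hv => ((hmem v).1 (Finset.mem_filter.1 hv).1).1
  have hdisj : ∀ i ∈ (Finset.univ : Finset (Fin r)), ∀ j ∈ (Finset.univ : Finset (Fin r)), i ≠ j →
      Disjoint (si i) (si j) := by
    intro i _ j _ hij
    rw [Finset.disjoint_left]
    intro v hi hj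
    rw [hsi, Finset.mem_filter] at hi hj
    have hg := hT v (hJT v hi.1)
    have k1 := (KR.localHeight_pos_iff v (hy i)).1 hi.2
    have k2 := (KR.localHeight_pos_iff v (hy j)).1 hj.2
    rw [hg.1, one_mul] at k1 k2
    exact KR.two_forms v (hg.1 i) (hg.1 j) (hg.2 i j hij) k1 k2
  have hsum : ∑ i, Real.log (nn (si i)) ≤ Real.log M := by
    have h1 : ∑ i, Real.log (nn (si i)) = ∑ v ∈ Finset.univ.biUnion si, Real.log (Nv v) := by
      rw [Finset.sum_biUnion hdisj]
      exact Finset.sum_congr rfl fun i _ => KR.log_nn (si i)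
    have h2 : Real.log (nn J) ≤ Real.log M := Real.log_le_log (nn_pos _) hJM
    refine le_trans ?_ h2
    rw [h1, KR.log_nn]
    refine Finset.sum_le_sum_of_subset_of_nonneg ?_ fun v _ _ => hlogpos v
    intro v hv
    obtain ⟨i, _, hi⟩ := Finset.mem_biUnion.1 hv
    exact (Finset.mem_filter.1 hi).1
  obtain ⟨s, hs⟩ := KR.three_small hr (fun i => Real.log (nn (si i))) _ hsum
  refine ⟨s, (Finset.univ : Finset (Fin 3)).biUnion fun k => si (finRotate r ^ (k : ℕ) • s),
    ?_, ?_⟩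
  · intro v hv
    by_contra hcon
    rw [not_or, not_or] at hcon
    obtain ⟨⟨k1, kc⟩, k2⟩ := hcon
    have hg := hT v k1
    refine KR.sp_tt (KR.tri_ne hr hb s) (fun i => hy _) (KR.tri_good hr hg s) ?_ hv
    intro k hk
    apply k2
    refine Finset.mem_biUnion.2 ⟨k, Finset.mem_univ _, ?_⟩
    rw [hsi, Finset.mem_filter, hJ, Finset.mem_filter, hmem]
    exact ⟨⟨⟨k1, Finset.sum_pos' (fun i _ => KR.localHeight_nonneg v (hy i))
      ⟨_, Finset.mem_univ _, hk⟩⟩, kc⟩, hk⟩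
  · have hfin : Real.log (nn ((Finset.univ : Finset (Fin 3)).biUnion fun k =>
        si (finRotate r ^ (k : ℕ) • s))) ≤ Real.log (M ^ (3 / (r : ℝ))) := by
      rw [Real.log_rpow hM0]
      refine le_trans (le_of_eq ?_) hs
      rw [KR.log_nn, Finset.sum_biUnion]
      · exact Finset.sum_congr rfl fun k _ => (KR.log_nn _).symm
      · intro i _ j _ hij
        exact hdisj _ (Finset.mem_univ _) _ (Finset.mem_univ _)
          fun h' => hij (KR.rotate_inj hr s h')
    exact (Real.log_le_log_iff (nn_pos _) (Real.rpow_pos_of_pos hM0 _)).1 hfin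

/-- the affine coordinate determines the point of the line -/
private theorem Free_inj {r : ℕ} (hr : 3 ≤ r) {b : Fin r → Fin 2 → K}
    (hb : ∀ i j, i ≠ j → form (b i) (b j) ≠ 0) (s : Fin r) {P Q : PL K}
    (hP : Off b P) (hQ : Off b Q)
    (h : KR.tt (KR.tri b s) P.rep = KR.tt (KR.tri b s) Q.rep) : P = Q := by
  obtain ⟨k, hk⟩ := KR.tt_inj (KR.tri_ne hr hb s) (fun i => hP _) (fun i => hQ _) h
  rw [← P.mk_rep, ← Q.mk_rep, Projectivization.mk_eq_mk_iff']
  exact ⟨k, hk⟩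

variable (K) in
theorem freeBound {r : ℕ} (hr : 3 ≤ r) (b : Fin r → Fin 2 → K)
    (hb : ∀ i j, i ≠ j → form (b i) (b j) ≠ 0) (T : Finset (Pr K))
    (hT : ∀ v, v ∉ T → GoodPr b v) : FreeBound K T b := by
  classical
  intro ε hε
  obtain ⟨C, hC1, hLS⟩ := MN.lightSets K
  have hδ : 0 < ε / 2 := by linarith
  obtain ⟨_, D0, hD0, hsum⟩ := KR.sum_sets K C hC1 (ε / 2) hδ
  obtain ⟨D1, hD1, hpow⟩ := MN.powCard K C hC1 (ε / 2) hδ
  have hC0 : 0 < C := by linarith
  have hD10 : 0 < D1 := by linarith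
  have hr0 : (0 : ℝ) < r := by exact_mod_cast (by omega : 0 < r)
  refine ⟨(r : ℝ) * (C * C ^ T.card) * D0 * D1, by positivity, ?_⟩
  intro X hX c hcX M hM hMX F hF
  have hX0 : 0 < X := by linarith
  set e : ℝ := 3 / (r : ℝ) with he
  have he0 : 0 ≤ e := by positivity
  have he1 : e ≤ 1 := by
    rw [he, div_le_one hr0]
    exact_mod_cast hr
  set N : ℝ := M ^ e with hN
  have hN1 : 1 ≤ N := Real.one_le_rpow hM he0
  have hN0 : 0 < N := by linarith
  have hNX : N ≤ X := by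
    have h1 : N ≤ M ^ (1 : ℝ) := Real.rpow_le_rpow_of_exponent_le hM he1
    rw [Real.rpow_one] at h1
    exact h1.trans hMX
  -- the choices
  have hch : ∀ Q : PL K, ∃ (s : Fin r) (u : Finset (Pr K)), Q ∈ F →
      (∀ v ∈ sp (KR.tt (KR.tri b s) Q.rep), (v ∈ T ∨ v ∈ c) ∨ v ∈ u) ∧ nn u ≤ N := by
    intro Q
    by_cases hQ : Q ∈ F
    · obtain ⟨h1, h2⟩ := hF Q hQ
      obtain ⟨s, u, h3, h4⟩ := Free_choose hr hb hT Q.rep_nonzero h1 c hM h2
      exact ⟨s, u, fun _ => ⟨h3, h4⟩⟩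
    · exact ⟨⟨0, by omega⟩, ∅, fun h => absurd h hQ⟩
  choose S u hSu using hch
  -- one piece
  have hpiece : ∀ (s : Fin r) (u' : Finset (Pr K)),
      (((F.filter fun Q => (S Q, u Q) = (s, u')).card : ℕ) : ℝ) ≤
        C * C ^ T.card * C ^ c.card * C ^ u'.card := by
    intro s u'
    set G := F.filter fun Q => (S Q, u Q) = (s, u') with hG
    have hGm : ∀ Q ∈ G, Q ∈ F ∧ S Q = s ∧ u Q = u' := by
      intro Q hQ
      obtain ⟨h1, h2⟩ := Finset.mem_filter.1 hQ
      exact ⟨h1, (Prod.mk.inj h2).1, (Prod.mk.inj h2).2⟩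
    have h1 : (G.image fun Q => KR.tt (KR.tri b s) Q.rep).card = G.card := by
      refine Finset.card_image_of_injOn ?_
      intro P hP Q hQ hPQ
      exact Free_inj hr hb s (hF P (hGm P hP).1).1 (hF Q (hGm Q hQ).1).1 hPQ
    have h2 := hLS ((T ∪ c) ∪ u') (G.image fun Q => KR.tt (KR.tri b s) Q.rep) (by
      intro t ht
      obtain ⟨Q, hQ, rfl⟩ := Finset.mem_image.1 ht
      obtain ⟨hQF, hs, hu⟩ := hGm Q hQ
      refine ⟨KR.Pt_tt (KR.tri_ne hr hb s) (fun i => (hF Q hQF).1 _), ?_⟩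
      intro v hv
      rw [Finset.mem_union, Finset.mem_union]
      rw [← hs] at hv
      have h3 := (hSu Q hQF).1 v hv
      rwa [hu] at h3)
    rw [h1] at h2
    refine h2.trans ?_
    have h3 : ((T ∪ c) ∪ u').card + 1 ≤ 1 + T.card + c.card + u'.card := by
      have h4 := Finset.card_union_le (T ∪ c) u'
      have h5 := Finset.card_union_le T c
      omega
    refine (pow_le_pow_right₀ hC1 h3).trans (le_of_eq ?_)
    rw [pow_add, pow_add, pow_add, pow_one]
  -- the sum over the pieces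
  have hcard : (F.card : ℝ) ≤ ∑ s : Fin r, ∑ u' ∈ F.image u,
      C * C ^ T.card * C ^ c.card * C ^ u'.card := by
    have h1 : F.card = ∑ p ∈ (Finset.univ : Finset (Fin r)) ×ˢ F.image u,
        (F.filter fun Q => (S Q, u Q) = p).card := by
      refine Finset.card_eq_sum_card_fiberwise ?_
      intro Q hQ
      rw [Finset.mem_coe, Finset.mem_product]
      exact ⟨Finset.mem_univ _, Finset.mem_image_of_mem u hQ⟩
    rw [h1, Nat.cast_sum, ← Finset.sum_product']
    exact Finset.sum_le_sum fun p _ => hpiece p.1 p.2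
  have hU : ∑ u' ∈ F.image u, C ^ u'.card ≤ D0 * N ^ (1 + ε / 2) := by
    refine hsum N hN1 _ ?_
    intro s hs
    obtain ⟨Q, hQ, rfl⟩ := Finset.mem_image.1 hs
    exact (hSu Q hQ).2
  have h2 : ∑ s : Fin r, ∑ u' ∈ F.image u, C * C ^ T.card * C ^ c.card * C ^ u'.card =
      (r : ℝ) * (C * C ^ T.card * C ^ c.card * ∑ u' ∈ F.image u, C ^ u'.card) := by
    rw [Finset.sum_const, Finset.card_univ, Fintype.card_fin, nsmul_eq_mul, ← Finset.mul_sum]
  rw [h2] at hcard
  have h3 : C ^ c.card ≤ D1 * X ^ (ε / 2) := by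
    refine (hpow c).trans (mul_le_mul_of_nonneg_left ?_ hD10.le)
    exact Real.rpow_le_rpow (nn_pos _).le hcX hδ.le
  have h4 : N ^ (1 + ε / 2) ≤ N * X ^ (ε / 2) := by
    rw [Real.rpow_add hN0, Real.rpow_one]
    exact mul_le_mul_of_nonneg_left (Real.rpow_le_rpow hN0.le hNX hδ.le) hN0.le
  have h5 : X ^ ε = X ^ (ε / 2) * X ^ (ε / 2) := by
    rw [← Real.rpow_add hX0]
    congr 1
    ring
  have hXe : 0 < X ^ (ε / 2) := Real.rpow_pos_of_pos hX0 _
  have hCT : 0 ≤ C * C ^ T.card := by positivity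
  calc (F.card : ℝ) ≤ _ := hcard
    _ ≤ (r : ℝ) * (C * C ^ T.card * (D1 * X ^ (ε / 2)) * (D0 * (N * X ^ (ε / 2)))) := by
        refine mul_le_mul_of_nonneg_left ?_ hr0.le
        refine mul_le_mul (mul_le_mul_of_nonneg_left h3 hCT) (hU.trans
          (mul_le_mul_of_nonneg_left h4 hD0.le)) ?_ (by positivity)
        exact Finset.sum_nonneg fun _ _ => by positivity
    _ = (r : ℝ) * (C * C ^ T.card) * D0 * D1 * X ^ ε * N := by
        rw [h5]
        ring

end Pool.Agent.TH876.PR
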