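import Mathlib
import Pool.Agent.TH876.MN.Layer
import Pool.Agent.TH876.PR.Def

set_option autoImplicit false

namespace Pool.Agent.TH876.PR

open NumberField IsDedekindDomain Finset Pool.Agent.H691R3 Pool.Agent.TH876.Loc
open Pool.Agent.TH876.KR (form localHeight GoodPr)

variable {K : Type} [Field K] [NumberField K]

/-- the linear inequality between the logarithms -/
private theorem pair_lin (q r e ρ ξ η : ℝ) (hq : 0 < q) (hr : 0 < r) (hρ : 0 ≤ ρ)
    (hρξ : ρ ≤ ξ) (hη : η ≤ ξ) (hη2 : η ≤ ρ * ((q + r) / q)) (he1 : 2 / q ≤ e)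
    (he2 : 5 / (q + r) ≤ e) : 3 / r * (η - ρ) + 2 / q * ρ ≤ e * ξ := by
  have hξ : 0 ≤ ξ := hρ.trans hρξ
  have hr3 : 0 < 3 / r := by positivity
  rcases le_or_gt 0 (2 / q - 3 / r) with hδ | hδ
  · calc 3 / r * (η - ρ) + 2 / q * ρ = 3 / r * η + (2 / q - 3 / r) * ρ := by ring
      _ ≤ 3 / r * ξ + (2 / q - 3 / r) * ξ :=
          add_le_add (mul_le_mul_of_nonneg_left hη hr3.le) (mul_le_mul_of_nonneg_left hρξ hδ)
      _ = 2 / q * ξ := by ring
      _ ≤ e * ξ := mul_le_mul_of_nonneg_right he1 hξ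
  · have h1 : η * (q / (q + r)) ≤ ρ := by
      have h2 := mul_le_mul_of_nonneg_right hη2 (show 0 ≤ q / (q + r) by positivity)
      have h3 : ρ * ((q + r) / q) * (q / (q + r)) = ρ := by field_simp
      linarith
    have h4 : (2 / q - 3 / r) * ρ ≤ (2 / q - 3 / r) * (η * (q / (q + r))) :=
      mul_le_mul_of_nonpos_left h1 hδ.le
    calc 3 / r * (η - ρ) + 2 / q * ρ = 3 / r * η + (2 / q - 3 / r) * ρ := by ring
      _ ≤ 3 / r * η + (2 / q - 3 / r) * (η * (q / (q + r))) := by linarith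
      _ = 5 / (q + r) * η := by field_simp; ring
      _ ≤ 5 / (q + r) * ξ := mul_le_mul_of_nonneg_left hη (by positivity)
      _ ≤ e * ξ := mul_le_mul_of_nonneg_right he2 hξ

private theorem pair_pow (q r : ℕ) (hq : 1 ≤ q) (hr : 1 ≤ r) (R X : ℝ) (hR : 1 ≤ R)
    (hRX : R ≤ X) :
    (min X (R ^ (((q : ℝ) + r) / q)) / R) ^ (3 / (r : ℝ)) ≤
      X ^ (max (2 / (q : ℝ)) (5 / ((q : ℝ) + r))) * R ^ (-(2 / (q : ℝ))) := by
  have hR0 : 0 < R := by linarith
  have hX0 : 0 < X := by linarith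
  have hq0 : (0 : ℝ) < q := by exact_mod_cast hq
  have hr0 : (0 : ℝ) < r := by exact_mod_cast hr
  have hRp : 0 < R ^ (((q : ℝ) + r) / q) := Real.rpow_pos_of_pos hR0 _
  set Y := min X (R ^ (((q : ℝ) + r) / q)) with hY
  have hY0 : 0 < Y := lt_min hX0 hRp
  have h1 : Real.log Y ≤ Real.log X := Real.log_le_log hY0 (min_le_left _ _)
  have h2 : Real.log Y ≤ Real.log R * (((q : ℝ) + r) / q) := by
    have := Real.log_le_log hY0 (min_le_right X (R ^ (((q : ℝ) + r) / q)))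
    rw [Real.log_rpow hR0] at this
    linarith
  have h3 := pair_lin q r (max (2 / (q : ℝ)) (5 / ((q : ℝ) + r))) (Real.log R) (Real.log X)
    (Real.log Y) hq0 hr0 (Real.log_nonneg hR) (Real.log_le_log hR0 hRX) h1 h2 (le_max_left _ _)
    (le_max_right _ _)
  rw [Real.rpow_def_of_pos (div_pos hY0 hR0), Real.rpow_def_of_pos hX0,
    Real.rpow_def_of_pos hR0, ← Real.exp_add, Real.exp_le_exp, Real.log_div hY0.ne' hR0.ne']
  linarith

/-- one of the two cases -/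
private theorem pair_half (q r : ℕ) (hq : 1 ≤ q) (hr : 1 ≤ r) (ε : ℝ) (hε : 0 < ε) :
    ∃ E : ℝ, 0 < E ∧ ∀ (A B : Type) (R1 : A → ℝ) (U : A → B → ℝ),
    (∀ a, 1 ≤ R1 a) → (∀ a b, R1 a ≤ U a b) → ∀ (M D X : ℝ), 0 < M → 0 < D → 1 ≤ X →
    ∀ (GA : Set A) (GB : Set B),
    (∀ R : ℝ, 1 ≤ R → ∀ F : Finset A, (∀ a ∈ F, a ∈ GA ∧ R1 a ≤ R) →
      (F.card : ℝ) ≤ M * R ^ (2 / (q : ℝ) + ε)) →
    (∀ a ∈ GA, ∀ Y : ℝ, R1 a ≤ Y → Y ≤ X → ∀ F : Finset B, (∀ b ∈ F, b ∈ GB ∧ U a b ≤ Y) →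
      (F.card : ℝ) ≤ D * X ^ ε * (Y / R1 a) ^ (3 / (r : ℝ))) →
    ∀ F : Finset (A × B), (∀ p ∈ F, p.1 ∈ GA ∧ p.2 ∈ GB ∧ U p.1 p.2 ≤ X ∧
      (U p.1 p.2) ^ ((q : ℝ) / (q + r)) ≤ R1 p.1) →
    (F.card : ℝ) ≤ D * M * E * X ^ (max (2 / (q : ℝ)) (5 / ((q : ℝ) + r)) + 3 * ε) := by
  classical
  have hq0 : (0 : ℝ) < q := by exact_mod_cast hq
  have hr0 : (0 : ℝ) < r := by exact_mod_cast hr
  obtain ⟨E, hE, hlay⟩ := Pool.Agent.TH876.MN.layer (2 / (q : ℝ)) ε (by positivity) hε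
  refine ⟨E, hE, ?_⟩
  intro A B R1 U hR1 hRU M D X hM hD hX GA GB hA hB F hF
  have hX0 : 0 < X := by linarith
  set e : ℝ := max (2 / (q : ℝ)) (5 / ((q : ℝ) + r)) with he
  set I := F.image Prod.fst with hI
  have hIm : ∀ a ∈ I, ∃ b, (a, b) ∈ F := by
    intro a ha
    rw [hI, Finset.mem_image] at ha
    obtain ⟨p, hp, rfl⟩ := ha
    exact ⟨p.2, hp⟩
  -- the fibres
  have hfib : ∀ a ∈ I, ((F.filter (fun p => p.1 = a)).card : ℝ) ≤
      D * X ^ ε * (X ^ e * R1 a ^ (-(2 / (q : ℝ)))) := by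
    intro a ha
    obtain ⟨b0, hb0⟩ := hIm a ha
    have h0 := hF _ hb0
    have hRX : R1 a ≤ X := (hRU a b0).trans h0.2.2.1
    have hRa := hR1 a
    have hRa0 : 0 < R1 a := by linarith
    have hcard : (F.filter (fun p => p.1 = a)).card =
        ((F.filter (fun p => p.1 = a)).image Prod.snd).card := by
      rw [Finset.card_image_of_injOn]
      intro p hp p' hp' h
      have e1 := (Finset.mem_filter.1 (Finset.mem_coe.1 hp)).2
      have e2 := (Finset.mem_filter.1 (Finset.mem_coe.1 hp')).2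
      exact Prod.ext (e1.trans e2.symm) h
    rw [hcard]
    set Y := min X (R1 a ^ (((q : ℝ) + r) / q)) with hY
    have hRY : R1 a ≤ Y := by
      refine le_min hRX ?_
      have h1 : (1 : ℝ) ≤ ((q : ℝ) + r) / q := by
        rw [le_div_iff₀ hq0]; linarith
      have := Real.rpow_le_rpow_of_exponent_le hRa h1
      rwa [Real.rpow_one] at this
    refine (hB a h0.1 Y hRY (min_le_left _ _) _ ?_).trans ?_
    · intro b hb
      rw [Finset.mem_image] at hb
      obtain ⟨p, hp, rfl⟩ := hb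
      have hp1 := Finset.mem_filter.1 hp
      have hp2 := hF p hp1.1
      rw [hp1.2] at hp2
      refine ⟨hp2.2.1, le_min hp2.2.2.1 ?_⟩
      have hU0 : 0 < U a p.2 := lt_of_lt_of_le hRa0 (hRU a p.2)
      have h1 := Real.rpow_le_rpow (Real.rpow_nonneg hU0.le _) hp2.2.2.2
        (show (0 : ℝ) ≤ ((q : ℝ) + r) / q by positivity)
      rw [← Real.rpow_mul hU0.le] at h1
      have h2 : (q : ℝ) / (q + r) * (((q : ℝ) + r) / q) = 1 := by field_simp
      rwa [h2, Real.rpow_one] at h1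
    · exact mul_le_mul_of_nonneg_left (pair_pow q r hq hr (R1 a) X hRa hRX) (by positivity)
  have hsum := hlay A I R1 M X hM.le hX (fun a ha => by
      obtain ⟨b0, hb0⟩ := hIm a ha
      exact ⟨hR1 a, (hRU a b0).trans (hF _ hb0).2.2.1⟩)
    (fun R hR G hG hGR => hA R hR G fun a ha => by
      obtain ⟨b0, hb0⟩ := hIm a (hG ha)
      exact ⟨(hF _ hb0).1, hGR a ha⟩)
  have hF1 : (F.card : ℝ) = ∑ a ∈ I, ((F.filter (fun p => p.1 = a)).card : ℝ) := by
    have := Finset.card_eq_sum_card_fiberwise (f := Prod.fst) (s := F) (t := I)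
      (fun p hp => Finset.mem_coe.2 (Finset.mem_image_of_mem _ hp))
    exact_mod_cast this
  rw [hF1]
  calc ∑ a ∈ I, ((F.filter (fun p => p.1 = a)).card : ℝ)
      ≤ ∑ a ∈ I, D * X ^ ε * (X ^ e * R1 a ^ (-(2 / (q : ℝ)))) := Finset.sum_le_sum hfib
    _ = D * X ^ ε * X ^ e * ∑ a ∈ I, R1 a ^ (-(2 / (q : ℝ))) := by
        rw [Finset.mul_sum]
        exact Finset.sum_congr rfl fun a _ => by ring
    _ ≤ D * X ^ ε * X ^ e * (E * M * X ^ (2 * ε)) :=
        mul_le_mul_of_nonneg_left hsum (by positivity)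
    _ = D * M * E * X ^ (e + 3 * ε) := by
        have : X ^ (e + 3 * ε) = X ^ ε * X ^ e * X ^ (2 * ε) := by
          rw [← Real.rpow_add hX0, ← Real.rpow_add hX0]
          congr 1; ring
        rw [this]; ring

theorem pairBound : PairBound := by
  classical
  intro q r hq hr ε hε
  have hq0 : (0 : ℝ) < q := by exact_mod_cast hq
  have hr0 : (0 : ℝ) < r := by exact_mod_cast hr
  obtain ⟨E1, hE1, h1⟩ := pair_half q r hq hr ε hε
  obtain ⟨E2, hE2, h2⟩ := pair_half r q hr hq ε hε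
  refine ⟨E1 + E2, by positivity, ?_⟩
  intro A B R1 R2 U hR1 hR2 hRU1 hRU2 hU M D X hM hD hX GA GB hA hB hAB hBA F hF
  set e : ℝ := max (max (2 / (q : ℝ)) (2 / (r : ℝ))) (5 / ((q : ℝ) + r)) with he
  set F1 := F.filter (fun p => (U p.1 p.2) ^ ((q : ℝ) / (q + r)) ≤ R1 p.1) with hF1
  set F2 := F.filter (fun p => (U p.1 p.2) ^ ((r : ℝ) / (r + q)) ≤ R2 p.2) with hF2
  have hcov : F ⊆ F1 ∪ F2 := by
    intro p hp
    rw [Finset.mem_union, hF1, hF2, Finset.mem_filter, Finset.mem_filter]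
    by_contra hcon
    push Not at hcon
    have g1 := hcon.1 hp
    have g2 := hcon.2 hp
    have hU0 : 0 < U p.1 p.2 := by
      have := hR1 p.1
      have := hRU1 p.1 p.2
      linarith
    have g3 : R1 p.1 * R2 p.2 < (U p.1 p.2) ^ ((q : ℝ) / (q + r)) *
        (U p.1 p.2) ^ ((r : ℝ) / (r + q)) :=
      mul_lt_mul'' g1 g2 (by linarith [hR1 p.1]) (by linarith [hR2 p.2])
    rw [← Real.rpow_add hU0] at g3
    have g4 : (q : ℝ) / (q + r) + (r : ℝ) / (r + q) = 1 := by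
      rw [add_comm (r : ℝ) (q : ℝ), ← add_div, div_self (by positivity)]
    rw [g4, Real.rpow_one] at g3
    exact absurd (hU p.1 p.2) (not_le.2 g3)
  have c1 := h1 A B R1 U hR1 hRU1 M D X hM hD hX GA GB hA hAB F1 fun p hp => by
    rw [hF1, Finset.mem_filter] at hp
    exact ⟨(hF p hp.1).1, (hF p hp.1).2.1, (hF p hp.1).2.2, hp.2⟩
  have c2 := h2 B A R2 (fun b a => U a b) hR2 (fun b a => hRU2 a b) M D X hM hD hX GB GA hB hBA
    (F2.map (Equiv.prodComm A B).toEmbedding) fun p hp => by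
      rw [Finset.mem_map] at hp
      obtain ⟨p', hp', rfl⟩ := hp
      rw [hF2, Finset.mem_filter] at hp'
      exact ⟨(hF p' hp'.1).2.1, (hF p' hp'.1).1, (hF p' hp'.1).2.2, hp'.2⟩
  rw [Finset.card_map] at c2
  have hm1 : X ^ (max (2 / (q : ℝ)) (5 / ((q : ℝ) + r)) + 3 * ε) ≤ X ^ (e + 3 * ε) := by
    refine Real.rpow_le_rpow_of_exponent_le hX ?_
    have : max (2 / (q : ℝ)) (5 / ((q : ℝ) + r)) ≤ e :=
      max_le ((le_max_left _ _).trans (le_max_left _ _)) (le_max_right _ _)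
    linarith
  have hm2 : X ^ (max (2 / (r : ℝ)) (5 / ((r : ℝ) + q)) + 3 * ε) ≤ X ^ (e + 3 * ε) := by
    refine Real.rpow_le_rpow_of_exponent_le hX ?_
    have : max (2 / (r : ℝ)) (5 / ((r : ℝ) + q)) ≤ e := by
      rw [add_comm (r : ℝ) (q : ℝ)]
      exact max_le ((le_max_right _ _).trans (le_max_left _ _)) (le_max_right _ _)
    linarith
  have hc : (F.card : ℝ) ≤ F1.card + F2.card := by
    exact_mod_cast (Finset.card_le_card hcov).trans (Finset.card_union_le _ _)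
  calc (F.card : ℝ) ≤ F1.card + F2.card := hc
    _ ≤ D * M * E1 * X ^ (e + 3 * ε) + D * M * E2 * X ^ (e + 3 * ε) :=
        add_le_add (c1.trans (mul_le_mul_of_nonneg_left hm1 (by positivity)))
          (c2.trans (mul_le_mul_of_nonneg_left hm2 (by positivity)))
    _ = D * M * (E1 + E2) * X ^ (e + 3 * ε) := by ring

end Pool.Agent.TH876.PR
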